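import Mathlib
import Pool.Agent.H904.IN.Final

/-!
# Weinstein conjecture: Reeb flows with nondegenerate commuting first integrals

Let `α` be a contact form on a closed manifold `M` of any dimension, `R` its Reeb field, and let
`f : M → W` be a smooth map to a Euclidean space whose components are first integrals of `R` in
involution. A point `x` is nondegenerate if some component `ℓ ∘ f` (`ℓ` a linear form on `W`) is critical
at `x` and its Hessian, restricted to the kernel of the derivative of `f` at `x`, has the smallest
possible kernel (of dimension `1 + rank`): it consists of the span of `R` and of the Hamiltonian vectors.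
For integrable systems this holds at the nondegenerate singular points in the sense of Vey and Eliasson.

Theorem: if `S` is a nonempty closed set of nondegenerate points of rank at most one, isolated in the set
of the points of rank at most one, then `R` has a closed orbit which starts in `S`; if the rank is one on
`S` then for infinitely many values `w` the set `S ∩ f⁻¹(w)` contains uncountably many closed orbits
of `R` of the same period. In particular every Reeb flow with two commuting first integrals, whose points
of rank at most one are nondegenerate, has a closed orbit (in dimension five: every integrable Reeb flow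
with nondegenerate singularities).
-/

open scoped Topology ContDiff Manifold
open Pool.Agent.H826R2.WStmt Pool.Agent.H904.IN

namespace Pool.Agent.Results.MP_e3ee0c_gt.CommutingIntegrals

universe u v w

theorem result
    -- a closed manifold `M` of any dimension with a contact form `α` and its Reeb field `R`
    {E : Type u} [NormedAddCommGroup E] [NormedSpace ℝ E] [FiniteDimensional ℝ E]
    {M : Type v} [TopologicalSpace M] [ChartedSpace E M] [IsManifold 𝓘(ℝ, E) ∞ M]
    [T2Space M] [CompactSpace M]
    (α : M → Cov E) (hα : IsContact α) (R : M → E) (hR : IsReeb α R)
    -- first integrals of `R` in involution, combined to a map `f` to a Euclidean space `W`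
    {W : Type w} [NormedAddCommGroup W] [InnerProductSpace ℝ W] [FiniteDimensional ℝ W]
    (f : M → W) (hf : Commuting α R f) :
    -- let `S` be a nonempty closed set, isolated in the set of the points of rank at most one,
    -- consisting of nondegenerate points of rank at most one
    (∀ S : Set M, IsClosed S → S.Nonempty → (∀ x ∈ S, ∀ᶠ y in 𝓝 x, rank E f y ≤ 1 → y ∈ S) →
      (∀ x ∈ S, rank E f x ≤ 1) → (∀ x ∈ S, Nondegenerate E f x) →
      -- (1) `R` has a closed orbit which starts in `S`
      (∃ (c : ℝ → M) (T : ℝ), IsPeriodicOrbit R c T ∧ c 0 ∈ S) ∧
      -- (2) if the rank is one on `S` then for infinitely many values `w` the set `S ∩ f⁻¹(w)`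
      -- contains, for some `T`, uncountably many closed orbits of period `T`
      ((∀ x ∈ S, rank E f x = 1) →
        {w : W | ∃ T : ℝ, ¬ {O : Set M | (∃ c : ℝ → M, IsPeriodicOrbit R c T ∧ O = Set.range c) ∧
          O ⊆ S ∩ f ⁻¹' {w}}.Countable}.Infinite)) ∧
    -- (3) if there are at most two functions, and all points of rank at most one are nondegenerate,
    -- then `R` has a closed orbit
    (Module.finrank ℝ W ≤ 2 → Nonempty M → (∀ x, rank E f x ≤ 1 → Nondegenerate E f x) →
      ∃ (c : ℝ → M) (T : ℝ), IsPeriodicOrbit R c T ∧ rank E f (c 0) ≤ 1) :=
  ⟨fun _ hSc hSne hS hS1 hnd => ⟨exists_periodic hα hR hf hSc hSne hS hS1 hnd,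
    fun h1 => infinitely_many hα hR hf hSc hSne hS h1 hnd⟩,
    fun hW _ hnd => exists_periodic_two hα hR hf hW hnd⟩

end Pool.Agent.Results.MP_e3ee0c_gt.CommutingIntegrals
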