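import Mathlib
import Pool.Agent.H754.Reeb.Crit

/-!
# Weinstein conjecture: a finite-time criterion, and the growth of the norms of the flow

Let `X = h R` be a flow of contact type on a closed manifold `M` of dimension at least two: a positive
multiple of the Reeb field `R` of a contact form (on a level set of contact type the Hamiltonian flow is
of this form up to the direction of time). The closed orbits found below have periods within `ρ` from a
difference `t' - t ≥ 1` of two of the given times, and there are two of them with disjoint images.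

1. There are such orbits if the maps at the times `t`, `t'` are closer to each other than `c / C²` in
   the `C¹` sense, where `C` bounds the derivative at the time `t`.
2. There are such orbits if more than `N` of the time maps, at times at pairwise distance at least one,
   have `C¹` norm at most `C` and a derivative with the modulus of continuity `μ`; `N = N (C, μ)`. Hence
   the flow of a counterexample to the Weinstein conjecture leaves every compact subset of `C¹(M, M)`.
3. There are such orbits if more than `exp (K C ^ K)` of the time maps, at times at pairwise distance at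
   least one, have `C^{1,a}` norm at most `C`. Here `K` does not depend on `C` and on the times. So the
   `C^{1,a}` norm of a counterexample grows at least like a power of `log t`, and the smallest period of
   any flow of contact type is bounded from above in terms of the growth of its norms.
-/

open scoped Topology ContDiff Manifold
open Set Filter Pool.Agent.H826R2.WStmt Pool.Agent.W671.RStmt Pool.Agent.H754.Reeb

namespace Pool.Agent.Results.MP_e3ee0c_gt.FiniteTimeCriterion

universe u v

theorem result
    {E : Type u} [NormedAddCommGroup E] [NormedSpace ℝ E] [FiniteDimensional ℝ E]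
    -- a closed manifold `M` of dimension at least two with a contact form `α` and its Reeb field `R`
    (hdim : 1 < Module.finrank ℝ E)
    {M : Type v} [TopologicalSpace M] [ChartedSpace E M] [IsManifold 𝓘(ℝ, E) ∞ M]
    [T2Space M] [CompactSpace M] [Nonempty M]
    (α : M → Cov E) (hα : IsContact α) (R : M → E) (hR : IsReeb α R)
    -- the vector field `X = h R`, with a positive function `h`, and its flow `Φ`
    (h : M → ℝ) (hh : ContMDiff 𝓘(ℝ, E) 𝓘(ℝ, ℝ) ∞ h) (hpos : ∀ x, 0 < h x)
    (Φ : M → ℝ → M) (hΦ : IsFlow (fun x => h x • R x) Φ)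
    -- an embedding, and the accuracy `ρ` of the periods
    {n : ℕ} (e : M → EuclideanSpace ℝ (Fin n)) (he : IsInjImmersion (E := E) e)
    (ρ : ℝ) (hρ : 0 < ρ) :
    -- two time maps which are close to each other
    (∃ c : ℝ, 0 < c ∧ ∀ (C : ℝ), 1 ≤ C → ∀ (t t' : ℝ), 1 ≤ t' - t →
      ∀ (G G' : M → EuclideanSpace ℝ (Fin n) →L[ℝ] EuclideanSpace ℝ (Fin n)),
      Induces (E := E) e (fun x => Φ x t) G → Induces (E := E) e (fun x => Φ x t') G' →
      (∀ x, ‖G x‖ ≤ C) →
      (∀ x, ‖e (Φ x t') - e (Φ x t)‖ ≤ c / C ^ 2 ∧ ‖G' x - G x‖ ≤ c / C ^ 2) →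
      TwoOrbitsNear (fun x => h x • R x) (t' - t) ρ) ∧
    -- many time maps with bounded norm and a given modulus of continuity of the derivative
    (∀ (C : ℝ) (μ : ℝ → ℝ), 1 ≤ C → Tendsto μ (𝓝 0) (𝓝 0) → ∃ N : ℕ, ∀ s : Finset ℝ,
      (∀ t ∈ s, C1Bound (E := E) e C μ (fun x => Φ x t)) →
      (∀ t ∈ s, ∀ t' ∈ s, t ≠ t' → 1 ≤ |t - t'|) → N < s.card →
      ∃ t ∈ s, ∃ t' ∈ s, 1 ≤ t' - t ∧ TwoOrbitsNear (fun x => h x • R x) (t' - t) ρ) ∧
    -- many time maps with bounded `C^{1,a}` norm
    ∀ a : ℝ, 0 < a → ∃ K : ℕ, ∀ C : ℝ, 1 ≤ C → ∀ s : Finset ℝ,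
      (∀ t ∈ s, C1Bound (E := E) e C (fun r => C * r ^ a) (fun x => Φ x t)) →
      (∀ t ∈ s, ∀ t' ∈ s, t ≠ t' → 1 ≤ |t - t'|) → Real.exp (K * C ^ K) < s.card →
      ∃ t ∈ s, ∃ t' ∈ s, 1 ≤ t' - t ∧ TwoOrbitsNear (fun x => h x • R x) (t' - t) ρ :=
  criterion hdim hα hR hh hpos hΦ he hρ

end Pool.Agent.Results.MP_e3ee0c_gt.FiniteTimeCriterion
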