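import Mathlib
import Pool.Agent.H904.SF.Final

/-!
# Weinstein conjecture: closed families of invariant surfaces, Seifert fibrations

Let `α` be a contact form on a manifold `M` of any dimension (more generally, a smooth one-form) and let
`R` be its Reeb field, `α(R) = 1`, `dα(R, ·) = 0`. Let `P` be a closed manifold of any dimension, fibred
by closed surfaces, the level sets of a smooth map `f : P → W`, and let `q : P → M` be a smooth map which
sends these surfaces to surfaces tangent to `R`: a lift `RP` of `R` is tangent to the level sets of `f`.
Assume that the family moves at every point: `q^*dα (Z, ·) ≠ 0` for a field `Z` which spans together with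
`RP` the tangent spaces of the level sets. Then infinitely many surfaces of the family carry closed
orbits of `R`, and each of these surfaces carries uncountably many closed orbits of the same period.

Examples for `P`: a closed invariant submanifold of `M` (for instance a regular common level set of some
first integrals, a compact stratum of two-dimensional invariant tori), `M` itself, the pull back of `M`
to the frame bundle of `B`, when `R` is tangent to a Seifert fibration `M → B` by closed surfaces over
an orbifold `B`, good or bad.
-/

open scoped Topology ContDiff Manifold
open Pool.Agent.H826R2.WStmt Pool.Agent.H904.SF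

namespace Pool.Agent.Results.MP_e3ee0c_gt.InvariantSurfaceFamilies

universe u u' v v' w

theorem result
    -- a manifold `M` of any dimension, not necessarily closed
    {E : Type u} [NormedAddCommGroup E] [NormedSpace ℝ E] [FiniteDimensional ℝ E]
    {M : Type v} [TopologicalSpace M] [ChartedSpace E M] [IsManifold 𝓘(ℝ, E) ∞ M] [T2Space M]
    -- with a smooth one-form `α` and a field `R` such that `α(R) = 1`, `dα(R, ·) = 0`
    (α : M → Cov E) (hα : SmoothForm α) (R : M → E) (hR : IsReeb α R)
    -- where `α` is a contact form, or at least `R` is smooth
    (hc : IsContact α ∨ SmoothField R)
    -- a nonempty closed manifold `P` of any dimension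
    {E' : Type u'} [NormedAddCommGroup E'] [NormedSpace ℝ E'] [FiniteDimensional ℝ E']
    {P : Type v'} [TopologicalSpace P] [ChartedSpace E' P] [IsManifold 𝓘(ℝ, E') ∞ P]
    [T2Space P] [CompactSpace P] [Nonempty P]
    -- a map `q` to `M`, and a map `f` to a Euclidean space whose level sets are surfaces, such that
    -- the images of these surfaces form a family of surfaces tangent to `R` which moves everywhere
    {W : Type w} [NormedAddCommGroup W] [InnerProductSpace ℝ W] [FiniteDimensional ℝ W]
    (q : P → M) (RP Z : P → E') (f : P → W) (h : SurfaceFamily α R q RP Z f) :
    -- infinitely many surfaces of the family carry, for some `T`, uncountably many closed orbits of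
    -- `R` of period `T`
    {w : W | ∃ T : ℝ, ¬ {O : Set M | (∃ c : ℝ → M, IsPeriodicOrbit R c T ∧ O = Set.range c) ∧
      O ⊆ q '' (f ⁻¹' {w})}.Countable}.Infinite :=
  infinitely_many hα hR hc h

end Pool.Agent.Results.MP_e3ee0c_gt.InvariantSurfaceFamilies
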