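import Mathlib
import Pool.Agent.H904.W3.Final

/-!
# Closed three-manifolds tangent to the Reeb field of a closed contact manifold of any dimension

Let `M` be a closed manifold with a contact form `α` and its Reeb field `R`, and let `N` be a closed
oriented three-manifold, immersed in `M`, to which `R` is tangent. We consider three situations:

(1) `N` is a regular component of a common level set of `dim M - 3` first integrals of `R`;

(2) `N` consists of fixed points of a diffeomorphism `g` of `M` with `g^*α = α`, and the vectors fixed by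
the derivative of `g` at the points of `N` are tangent to `N` (there is no compactness hypothesis on `g`,
which may be partially hyperbolic or unipotent in the directions transverse to `N`);

(3) in addition to (2), `g` is of finite order.

In (3) the induced form on `N` is a contact form. In (1) and (2) it need not be a contact form, it may
even be closed. We show that the Reeb flow always preserves a smooth volume form of `N`, so that
`(α|N, i_R μ)` is a stable Hamiltonian structure with the Reeb field `R|N`. By the theorem of Hutchings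
and Taubes there is a closed Reeb orbit of `M` in `N`, if `N` is not a torus bundle over the circle
(in case (3) always, by the theorem of Taubes). These published theorems are the hypotheses of the last
assertions, everything else is proved.
-/

open scoped Topology ContDiff Manifold
open Pool.Agent.H826R2.WStmt Pool.Agent.H904.W3

namespace Pool.Agent.Results.MP_e3ee0c_gt.InvariantThreeManifolds

universe u v w

theorem result
    {E : Type u} [NormedAddCommGroup E] [NormedSpace ℝ E] [FiniteDimensional ℝ E]
    -- a closed manifold `M` with a contact form `α` and its Reeb field `R`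
    {M : Type v} [TopologicalSpace M] [ChartedSpace E M] [IsManifold 𝓘(ℝ, E) ∞ M]
    [T2Space M] [CompactSpace M]
    (α : M → Cov E) (hα : IsContact α) (R : M → E) (hR : IsReeb α R)
    -- a closed connected three-manifold `N`, oriented by a volume form `μ₀`, immersed in `M`, to which
    -- `R` is tangent; `RN` is the induced field on `N`
    {N : Type w} [TopologicalSpace N] [ChartedSpace E3 N] [IsManifold 𝓘(ℝ, E3) ∞ N]
    [T2Space N] [CompactSpace N] [ConnectedSpace N]
    (μ₀ : N → ℝ) (hμ₀ : IsVolumeForm μ₀)
    (j : N → M) (RN : N → E3) (hj : IsTangent R j RN) :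
    -- (1) first integrals `f i`, `i < dim M - 3`, constant on `N` and independent along `N`
    (∀ (k : ℕ) (f : Fin k → M → ℝ), Module.finrank ℝ E = 3 + k →
      (∀ i, ContMDiff 𝓘(ℝ, E) 𝓘(ℝ, ℝ) ∞ (f i)) →
      (∀ i x, D (E := E) (E' := ℝ) (f i) x (R x) = 0) →
      (∀ i y u, D (E := E) (E' := ℝ) (f i) (j y) (D (E := E3) (E' := E) j y u) = 0) →
      (∀ y, Function.Surjective
        fun (u : E) (i : Fin k) => D (E := E) (E' := ℝ) (f i) (j y) u) →
      (∃ (Ψ : N → ℝ → N) (μ : N → ℝ), IsStableReeb (pull j α) RN Ψ μ) ∧
      (HutchingsTaubes.{w} → ¬ IsTorusBundle N →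
        ∃ (γ : ℝ → N) (T : ℝ), IsPeriodicOrbit R (fun t => j (γ t)) T)) ∧
    -- (2) a strict contactomorphism `g` which fixes `N` and no other tangent vectors along `N`
    (∀ g : M → M, ContMDiff 𝓘(ℝ, E) 𝓘(ℝ, E) ∞ g → pull g α = α → (∀ y, g (j y) = j y) →
      (∀ y (u : E), D (E := E) (E' := E) g (j y) u = u → ∃ w, D (E := E3) (E' := E) j y w = u) →
      (∃ (Ψ : N → ℝ → N) (μ : N → ℝ), IsStableReeb (pull j α) RN Ψ μ) ∧
      (HutchingsTaubes.{w} → ¬ IsTorusBundle N →
        ∃ (γ : ℝ → N) (T : ℝ), IsPeriodicOrbit R (fun t => j (γ t)) T) ∧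
      -- (3) the same, `g` of finite order
      (∀ m : ℕ, 0 < m → g^[m] = id →
        IsContact (pull (E := E3) (E' := E) j α) ∧ IsReeb (pull (E := E3) (E' := E) j α) RN ∧
        (Taubes.{w} → ∃ (γ : ℝ → N) (T : ℝ), IsPeriodicOrbit R (fun t => j (γ t)) T))) := by
  refine ⟨fun k f hk hf hfR hN hs => ?_, fun g hg hgα hgj hc => ?_⟩
  · have h := stable_of_integrals hα hR hj hμ₀ hk hf hfR hN hs
    refine ⟨h, fun HT hT => ?_⟩
    obtain ⟨Ψ, μ, h1⟩ := h
    obtain ⟨γ, T, h2⟩ := HT N _ _ Ψ μ h1 hT
    exact ⟨γ, T, hj.push h2⟩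
  · have h := stable_of_map hα hR hj hμ₀ hg hgα hgj hc
    refine ⟨h, fun HT hT => ?_, fun m hm hgm => ?_⟩
    · obtain ⟨Ψ, μ, h1⟩ := h
      obtain ⟨γ, T, h2⟩ := HT N _ _ Ψ μ h1 hT
      exact ⟨γ, T, hj.push h2⟩
    · obtain ⟨h1, h2⟩ := contact_of_finite hα hR hj hg hgα hgj hc hm hgm
      refine ⟨h1, h2, fun TB => ?_⟩
      obtain ⟨γ, T, h3⟩ := TB N _ _ h1 h2
      exact ⟨γ, T, hj.push h3⟩

end Pool.Agent.Results.MP_e3ee0c_gt.InvariantThreeManifolds
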